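import Pool.Agent.K1H1.BSP.Main

/-!
# Every two-person shortest path game has a bi-shortest path
-/

namespace Pool.Agent.Results.MP_9736fa_co.BiShortest

open Pool.Agent.K1H1.BSP

/-- For every finite directed graph with distinct vertices `s`, `t` (every vertex other than `t`
has an outgoing edge, `t` has none, and `t` can be reached from `s`), every partition `V1 ∪ V2` of
the vertices other than `t` and all positive local costs `r1`, `r2`, the sets `P1` and `P2` have a
common element, that is, a bi-shortest path exists. -/
theorem result {V E : Type*} [Finite V] [Finite E] (G : SPGame V E)
    (h : ∃ p, G.IsPath G.s p G.t) : (G.P1 ∩ G.P2).Nonempty :=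
  main G h

end Pool.Agent.Results.MP_9736fa_co.BiShortest
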